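import Pool.Agent.H59.RR.Final

set_option autoImplicit false

/-!
# General collisions of `87` and `93` fat points: all degrees but at most one

For `r = 87` and `r = 93`, every `m`, every field `k` of characteristic zero and all `(c, b)` outside a
hypersurface, the forms of degree `d` through the subscheme of the plane with ideal
`(y - (b₀ + b₁ x + ... + b_(r-1) x ^ (r-1)), (x - c) ^ r) ^ m` form a space of the expected dimension
`max (0, binom (d + 2, 2) - r binom (m + 1, 2))`, except possibly when `3 ∣ d` and
`binom (d + 2, 2) ≤ r binom (m + 1, 2) < binom (d + 3, 2)`, where the dimension is at most one.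
-/

namespace Pool.Agent.Results.MP_e6aa12_ag.AllDegreesButOne

open Polynomial

universe u

/-- The forms of degree `d` in three variables whose dehomogenisation lies in the ideal
`(y - ∑ b_i x ^ i, (x - c) ^ r) ^ m` of `k[x][y]`. -/
noncomputable def forms {k : Type u} [Field k] {r : ℕ} (m : ℕ) (c : k) (b : Fin r → k) (d : ℕ) :
    Submodule k (MvPolynomial (Fin 3) k) :=
  MvPolynomial.homogeneousSubmodule (Fin 3) k d ⊓
    (Submodule.restrictScalars k
      ((Ideal.span {X - C (∑ i : Fin r, C (b i) * X ^ (i : ℕ)), C ((X - C c) ^ r)} :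
        Ideal k[X][X]) ^ m)).comap
      (MvPolynomial.aeval ![C X, X, 1] :
        MvPolynomial (Fin 3) k →ₐ[k] k[X][X]).toLinearMap

/-- **General collisions of `87` and `93` fat points**: the expected dimension in all degrees but at
most one, where the dimension is at most one. -/
theorem result (r : ℕ) (hr : r = 87 ∨ r = 93) (m : ℕ)
    (k : Type u) [Field k] [CharZero k] :
    ∃ F : MvPolynomial (Fin (r + 1)) k, F ≠ 0 ∧
      ∀ (c : k) (b : Fin r → k), MvPolynomial.eval (Fin.cons c b : Fin (r + 1) → k) F ≠ 0 →
        ∀ d : ℕ,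
          (¬ (3 ∣ d ∧ Nat.choose (d + 2) 2 ≤ r * Nat.choose (m + 1) 2 ∧
              r * Nat.choose (m + 1) 2 < Nat.choose (d + 3) 2) →
            Module.finrank k (forms m c b d) = Nat.choose (d + 2) 2 - r * Nat.choose (m + 1) 2) ∧
          (Nat.choose (d + 2) 2 ≤ r * Nat.choose (m + 1) 2 →
            Module.finrank k (forms m c b d) ≤ 1) := by
  obtain ⟨F, hF, hF'⟩ := H59.RR.few_values (Or.inr (Or.inr hr)) m k
  refine ⟨F, hF, fun c b hc d => ⟨fun hd => ?_, fun hd => ?_⟩⟩
  · rcases hF' c b hc d with h1 | ⟨h1, h2, h3, -⟩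
    · exact h1
    · exact absurd ⟨h1, h2, h3⟩ hd
  · rcases hF' c b hc d with h1 | ⟨-, -, -, h4⟩
    · change Module.finrank k (forms m c b d) = _ at h1
      rw [h1, Nat.sub_eq_zero_of_le hd]
      exact Nat.zero_le 1
    · exact h4

end Pool.Agent.Results.MP_e6aa12_ag.AllDegreesButOne
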