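import Pool.Graph.R_seed8.TH183.QS.Fin
import Pool.Graph.R_seed8.TH518.CW.Fin
import Pool.Agent.H46.CD.Near
import Pool.Agent.H46.CD.Few

set_option autoImplicit false

/-!
# General collisions: the exceptional numbers of points of a degree, for all multiplicities at once

For `r ≥ 10` we consider the subschemes of the plane with ideal
`(y - (a₀ + a₁ x + ... + a_(r-1) x ^ (r-1)), (x - c) ^ r) ^ m`, for all `(c, a)` outside a hypersurface. We fix the degree
`d` and ask for which `r` the forms of degree `d` through the subscheme have the expected dimension for ALL multiplicities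
`m`.

1. For every `R` there is a positive (explicit) proportion of the degrees `d` for which this is true for ALL the numbers
   `10 ≤ r ≤ R` at once, over all fields of characteristic zero, and for all the non-squares among them and `r = 16` also
   over ALL fields. This is true in all intervals, in the values of every polynomial with integer coefficients, along the
   primes, ...
2. For EVERY degree `d` it is true for all the numbers `r ≥ 10` but at most `C d ^ (4 / 9)`, characteristic zero.

Proof. 1. For `r` and `m` only the degrees `√r m < d < √r (m + 1) - 3` are open in all characteristics. So the degrees `d`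
with `d < z √r < d + 3` for some integer `z` have no exception. If `r = b ^ 2 s`, `s` squarefree, then it suffices
that `d` is slightly less than a multiple of `ℓ √s`, where `ℓ` is the least common multiple of all `b ≤ √R`. The vectors
`(d / (ℓ √s))`, `s ≤ R` squarefree, are uniformly distributed modulo one along the sequences.
2. For large `r` and characteristic zero only the degrees with `|2 d + 3 - √r (2 m + 1)| = O(r ^ (-1 / 6))`, `r < 2 m`, are
open (library). So `(2 d + 3) / √r` is within `O(r ^ (-2 / 3))` of an odd integer. We count these `r` with the second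
derivative test of van der Corput.
-/

namespace Pool.Agent.Results.MP_e6aa12_ag.DegreesForAllNumbers

universe u

open Polynomial in
/-- The forms of degree `d` in three variables whose dehomogenisation lies in the ideal
`(y - ∑ a_j x ^ j, (x - c) ^ r) ^ m` of `k[x][y]`. -/
noncomputable def forms {k : Type u} [Field k] {r : ℕ} (m : ℕ) (c : k) (a : Fin r → k) (d : ℕ) :
    Submodule k (MvPolynomial (Fin 3) k) :=
  MvPolynomial.homogeneousSubmodule (Fin 3) k d ⊓
    (Submodule.restrictScalars k
      ((Ideal.span {X - C (∑ j : Fin r, C (a j) * X ^ (j : ℕ)), C ((X - C c) ^ r)} :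
        Ideal k[X][X]) ^ m)).comap
      (MvPolynomial.aeval ![C X, X, 1] :
        MvPolynomial (Fin 3) k →ₐ[k] k[X][X]).toLinearMap

/-- Over the field `k`, for all `(c, a)` outside a hypersurface, the space of forms has the expected dimension in the
degree `d`. -/
def At (k : Type u) [Field k] (r m d : ℕ) : Prop :=
  ∃ F : MvPolynomial (Fin (r + 1)) k, F ≠ 0 ∧
    ∀ (c : k) (a : Fin r → k), MvPolynomial.eval (Fin.cons c a : Fin (r + 1) → k) F ≠ 0 →
      Module.finrank k (forms m c a d) = Nat.choose (d + 2) 2 - r * Nat.choose (m + 1) 2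

/-- `SparseExceptions κ K M η P`: the property `P` fails rarely in polynomial sequences and along primes.
1. For every polynomial `f` with integer coefficients of degree between `1` and `K`, the leading coefficient being at most
   `M ^ κ` in absolute value (the other coefficients are arbitrary), `P (f n)` fails for at most
   `η M + M ^ (1 - κ)` of the natural numbers `n < M` with `f n > 0`.
2. For all integers `b ≠ 0` and `h` and natural numbers `q ≥ 1` and `a`, `|b|, q ≤ M ^ κ`, `P (b p + h)` fails for at most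
   `η T + M ^ (1 - κ)` of the `T` primes `p ≤ M` with `p ≡ a mod q` (only those with `b p + h > 0` are counted). -/
def SparseExceptions (κ : ℝ) (K M : ℕ) (η : ℝ) (P : ℕ → Prop) : Prop :=
  (∀ f : Polynomial ℤ, 1 ≤ f.natDegree → f.natDegree ≤ K → |(f.leadingCoeff : ℝ)| ≤ (M : ℝ) ^ κ →
    ({n : ℕ | n < M ∧ 0 < f.eval (n : ℤ) ∧ ¬ P (f.eval (n : ℤ)).toNat}.ncard : ℝ) ≤
      η * M + (M : ℝ) ^ (1 - κ)) ∧
  (∀ b h : ℤ, b ≠ 0 → |(b : ℝ)| ≤ (M : ℝ) ^ κ → ∀ q a : ℕ, 1 ≤ q → (q : ℝ) ≤ (M : ℝ) ^ κ →
    ({p : ℕ | p ≤ M ∧ p.Prime ∧ p ≡ a [MOD q] ∧ 0 < b * p + h ∧ ¬ P (b * p + h).toNat}.ncard : ℝ) ≤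
      η * ({p : ℕ | p ≤ M ∧ p.Prime ∧ p ≡ a [MOD q]}.ncard : ℝ) + (M : ℝ) ^ (1 - κ))

/-- The proportion of the degrees without exceptions: the product of the numbers `3 / (ℓ √s)` over the squarefree numbers
`s` between `2` and `R`, where `ℓ` is the least common multiple of the numbers up to `√R`. -/
noncomputable def prop (R : ℕ) : ℝ :=
  ∏ s ∈ (Finset.Icc 2 R).filter Squarefree, 3 / (((Finset.Icc 1 (Nat.sqrt R)).lcm id : ℕ) * Real.sqrt s)

/-- the window, all fields -/
lemma window_all (k : Type u) [Field k] {r : ℕ} (hr : 10 ≤ r) (m d : ℕ) (hbad : ¬ At k r m d) :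
    Real.sqrt r * m < d ∧ (d : ℝ) < Real.sqrt r * m + (Real.sqrt r - 3) := by
  by_contra hcon
  apply hbad
  obtain ⟨F, hF, hF'⟩ := Pool.Agent.TH518.CW.coll_all (m := m) hr k
  refine ⟨F, hF, fun c a hc => hF' c a hc d ?_⟩
  by_cases h3 : (d : ℝ) ≤ Real.sqrt r * m
  · exact Or.inl h3
  · right
    by_contra h4
    exact hcon ⟨not_le.1 h3, by linarith⟩

lemma sixteen (k : Type u) [Field k] (m d : ℕ) : At k 16 m d := by
  by_contra hbad
  obtain ⟨hD1, hD2⟩ := window_all k (by norm_num) m d hbad
  have h3 : Real.sqrt ((16 : ℕ) : ℝ) = 4 := by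
    have : ((16 : ℕ) : ℝ) = 4 ^ 2 := by norm_num
    rw [this]
    exact Real.sqrt_sq (by norm_num)
  rw [h3] at hD1 hD2
  have h4 : 4 * m < d := by exact_mod_cast hD1
  have h5 : (d : ℝ) < ((4 * m + 1 : ℕ) : ℝ) := by push_cast; linarith
  have h6 : d < 4 * m + 1 := by exact_mod_cast h5
  omega

/-- a degree slightly less than a multiple of `√r` has no exception -/
lemma near_at (k : Type u) [Field k] {r : ℕ} (hr : 10 ≤ r) {d : ℕ} {z : ℤ} (h1 : z * Real.sqrt r - 3 < d)
    (h2 : (d : ℝ) < z * Real.sqrt r) (m : ℕ) : At k r m d := by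
  by_contra hbad
  obtain ⟨h3, h4⟩ := window_all k hr m d hbad
  have hs : 0 < Real.sqrt r := Real.sqrt_pos.2 (by exact_mod_cast (by omega : 0 < r))
  rcases lt_or_ge (m : ℤ) z with h | h
  · -- `m + 1 ≤ z`
    have h5 : ((m : ℝ) + 1) ≤ z := by exact_mod_cast h
    have h6 := mul_le_mul_of_nonneg_right h5 hs.le
    linarith
  · have h5 : (z : ℝ) ≤ m := by exact_mod_cast h
    have h6 := mul_le_mul_of_nonneg_right h5 hs.le
    linarith

/-- 1. For every `R ≥ 10` the number `prop R` is positive, and for every `K` there are `0 < κ ≤ 1` and `M₀` such that for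
all `M ≥ M₀` all but the proportion `1 - prop R` of the degrees `d` in all the sequences of `SparseExceptions`, up to
`M ^ (1 - κ)`, satisfy: `At k r m d` for ALL `m` and

* all fields `k` and `r = 16` and all numbers `10 ≤ r ≤ R` that are not squares;
* all fields `k` of characteristic zero and all numbers `r ≥ 10` that are at most `R` or squares.

2. There is a constant `C` such that for every `d ≥ 1` at most `C d ^ (4 / 9)` numbers `r ≥ 10` are such that `At k r m d`
fails for some field `k` of characteristic zero and some `m`. -/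
theorem result :
    (∀ R : ℕ, 10 ≤ R → 0 < prop R ∧ ∀ K : ℕ, ∃ κ : ℝ, 0 < κ ∧ κ ≤ 1 ∧ ∃ M₀ : ℕ, ∀ M : ℕ, M₀ ≤ M →
      SparseExceptions κ K M (1 - prop R) (fun d =>
        (∀ (k : Type u) [Field k], ∀ r : ℕ, 10 ≤ r → ((r ≤ R ∧ ¬ IsSquare r) ∨ r = 16) → ∀ m : ℕ, At k r m d) ∧
        (∀ (k : Type u) [Field k] [CharZero k], ∀ r : ℕ, 10 ≤ r → (r ≤ R ∨ IsSquare r) → ∀ m : ℕ, At k r m d))) ∧
    (∃ C : ℝ, 0 < C ∧ ∀ d : ℕ, 1 ≤ d →
      {r : ℕ | 10 ≤ r ∧ ¬ ∀ (k : Type u) [Field k] [CharZero k] (m : ℕ), At k r m d}.Finite ∧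
      ({r : ℕ | 10 ≤ r ∧ ¬ ∀ (k : Type u) [Field k] [CharZero k] (m : ℕ), At k r m d}.ncard : ℝ) ≤
        C * (d : ℝ) ^ ((4 : ℝ) / 9)) := by
  refine ⟨fun R hR => ⟨Pool.Agent.H46.CD.prop_pos hR, fun K => ?_⟩, ?_⟩
  · obtain ⟨κ, hκ, hκ1, M₀, hM₀, h⟩ := Pool.Agent.H46.CD.near hR (fun d =>
        (∀ (k : Type u) [Field k], ∀ r : ℕ, 10 ≤ r → ((r ≤ R ∧ ¬ IsSquare r) ∨ r = 16) → ∀ m : ℕ, At k r m d) ∧
        (∀ (k : Type u) [Field k] [CharZero k], ∀ r : ℕ, 10 ≤ r → (r ≤ R ∨ IsSquare r) → ∀ m : ℕ, At k r m d))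
      (fun d _ hd => by
        have hns : ∀ (k : Type u) [Field k], ∀ r : ℕ, 10 ≤ r → r ≤ R → ¬ IsSquare r → ∀ m : ℕ, At k r m d := by
          intro k _ r h10 hrR hsq m
          obtain ⟨z, h1, h2⟩ := hd r hrR hsq
          exact near_at k h10 h1 h2 m
        constructor
        · intro k _ r h10 hr m
          rcases hr with ⟨hrR, hr⟩ | rfl
          · exact hns k r h10 hrR hr m
          · exact sixteen k m d
        · intro k _ _ r h10 hr m
          by_cases hsq : IsSquare r
          · obtain ⟨F, hF, hF'⟩ := Pool.Agent.TH183.QS.coll_start (m := m) h10 (Or.inr hsq) k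
            exact ⟨F, hF, fun c a hc => hF' c a hc d⟩
          · rcases hr with hr | hr
            · exact hns k r h10 hr hsq m
            · exact absurd hr hsq) K
    exact ⟨κ, hκ, hκ1, M₀, h⟩
  · exact Pool.Agent.H46.CD.few49

end Pool.Agent.Results.MP_e6aa12_ag.DegreesForAllNumbers
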