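import Pool.Agent.H59.PF.Main

set_option autoImplicit false

/-!
# General collisions of `r = 9 a ^ 2 + 2 a j` fat points: the whole upper half

Let `a` be odd, `j` a divisor of `2 a` and `r = 9 a ^ 2 + 2 a j` (`r = 11, 13, 87, 93, 99, 117, 235, 245,
275, 325, ...`). For every `m`, every field `k` of characteristic zero and all `(c, b)` outside a
hypersurface, the subscheme of the plane with ideal
`(y - (b₀ + b₁ x + ... + b_(r-1) x ^ (r-1)), (x - c) ^ r) ^ m` imposes independent conditions on forms
of degree `d` for all `d` with `√r (2 m + 1) ≤ 2 d + 3`, and for all smaller `d` there are at most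
`(r - 1) / 8` linearly independent forms of degree `d` through it.
-/

namespace Pool.Agent.Results.MP_e6aa12_ag.InfinitelyManyUpperHalves

open Polynomial

universe u

/-- The forms of degree `d` in three variables whose dehomogenisation lies in the ideal
`(y - ∑ b_i x ^ i, (x - c) ^ r) ^ m` of `k[x][y]`. -/
noncomputable def forms {k : Type u} [Field k] {r : ℕ} (m : ℕ) (c : k) (b : Fin r → k) (d : ℕ) :
    Submodule k (MvPolynomial (Fin 3) k) :=
  MvPolynomial.homogeneousSubmodule (Fin 3) k d ⊓
    (Submodule.restrictScalars k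
      ((Ideal.span {X - C (∑ i : Fin r, C (b i) * X ^ (i : ℕ)), C ((X - C c) ^ r)} :
        Ideal k[X][X]) ^ m)).comap
      (MvPolynomial.aeval ![C X, X, 1] :
        MvPolynomial (Fin 3) k →ₐ[k] k[X][X]).toLinearMap

/-- **General collisions of `9 a ^ 2 + 2 a j` fat points**, `a` odd, `j ∣ 2 a`: independent
conditions from the critical degree on, and at most `(r - 1) / 8` forms below it. -/
theorem result (a j r : ℕ) (ha : Odd a) (hj : j ∣ 2 * a) (hr : r = 9 * a ^ 2 + 2 * a * j)
    (m : ℕ) (k : Type u) [Field k] [CharZero k] :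
    ∃ F : MvPolynomial (Fin (r + 1)) k, F ≠ 0 ∧
      ∀ (c : k) (b : Fin r → k), MvPolynomial.eval (Fin.cons c b : Fin (r + 1) → k) F ≠ 0 →
        ∀ d : ℕ,
          (0 ≤ 2 * (d : ℝ) + 3 - Real.sqrt r * (2 * m + 1) →
            Module.finrank k (forms m c b d) + r * Nat.choose (m + 1) 2 = Nat.choose (d + 2) 2) ∧
          (2 * (d : ℝ) + 3 - Real.sqrt r * (2 * m + 1) < 0 →
            Module.finrank k (forms m c b d) ≤ (r - 1) / 8) := by
  subst hr
  obtain ⟨F, hF, hF'⟩ := H59.PF.fam_coll ha hj m k
  refine ⟨F, hF, fun c b hc d => ⟨fun hd => ?_, fun hd => ?_⟩⟩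
  · have h1 := (hF' c b hc).1 d (by linarith)
    have h2 := (H59.PF.fam_ind ha hj (m := m) (d := d) (by linarith)).1
    change Module.finrank k (forms m c b d) = _ at h1
    omega
  · have h1 := (hF' c b hc).2 d (by linarith)
    change 8 * Module.finrank k (forms m c b d) + 1 ≤ _ at h1
    omega

end Pool.Agent.Results.MP_e6aa12_ag.InfinitelyManyUpperHalves
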