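import Pool.Agent.H59.Gen.Fin

set_option autoImplicit false

/-!
# General collisions of every number `r` of fat points: the window of open degrees shrinks

Write `t = (2 d + 3) - √r (2 m + 1)`. For every `r ≥ 10`, every `m`, every field `k` of characteristic
zero and all `(c, b)` outside a hypersurface, the forms of degree `d` through the subscheme of the plane
with ideal `(y - (b₀ + b₁ x + ... + b_(r-1) x ^ (r-1)), (x - c) ^ r) ^ m` have the expected dimension for
all `d` with `|t| ≥ 2 r ^ (- 1 / 4) + 150 r ^ (- 1 / 2)`. In particular the upper density of the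
multiplicities `m` which are not settled in every degree is at most `2 r ^ (- 1 / 4) + 150 r ^ (- 1 / 2)`,
which tends to `0` with `1 / r`.
-/

namespace Pool.Agent.Results.MP_e6aa12_ag.ShrinkingWindowEveryR

open Polynomial Filter

universe u

/-- The forms of degree `d` in three variables whose dehomogenisation lies in the ideal
`(y - ∑ b_i x ^ i, (x - c) ^ r) ^ m` of `k[x][y]`. -/
noncomputable def forms {k : Type u} [Field k] {r : ℕ} (m : ℕ) (c : k) (b : Fin r → k) (d : ℕ) :
    Submodule k (MvPolynomial (Fin 3) k) :=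
  MvPolynomial.homogeneousSubmodule (Fin 3) k d ⊓
    (Submodule.restrictScalars k
      ((Ideal.span {X - C (∑ i : Fin r, C (b i) * X ^ (i : ℕ)), C ((X - C c) ^ r)} :
        Ideal k[X][X]) ^ m)).comap
      (MvPolynomial.aeval ![C X, X, 1] :
        MvPolynomial (Fin 3) k →ₐ[k] k[X][X]).toLinearMap

/-- Over every field of characteristic zero, for all `(c, b)` outside a hypersurface, the space of
forms has the expected dimension in all degrees `d` in the set `S`. -/
def Expected (r m : ℕ) (S : Set ℕ) : Prop :=
  ∀ (k : Type u) [Field k] [CharZero k],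
    ∃ F : MvPolynomial (Fin (r + 1)) k, F ≠ 0 ∧
      ∀ (c : k) (b : Fin r → k), MvPolynomial.eval (Fin.cons c b : Fin (r + 1) → k) F ≠ 0 →
        ∀ d ∈ S, Module.finrank k (forms m c b d) = Nat.choose (d + 2) 2 - r * Nat.choose (m + 1) 2

/-- The half-width `2 r ^ (- 1 / 4) + 150 r ^ (- 1 / 2)` of the window of open degrees. -/
noncomputable def width (r : ℕ) : ℝ := 2 / Real.sqrt (Real.sqrt r) + 150 / Real.sqrt r

theorem expected {r : ℕ} (hr : 10 ≤ r) (m : ℕ) :
    Expected.{u} r m {d | width r ≤ |2 * (d : ℝ) + 3 - Real.sqrt r * (2 * m + 1)|} := by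
  intro k _ _
  obtain ⟨F, hF, hF'⟩ := H59.Gen.every_r hr m k
  exact ⟨F, hF, fun c b hc d hd => hF' c b hc d hd⟩

theorem density {r : ℕ} (hr : 10 ≤ r) {c : ℝ} (hc : width r < c) :
    ∀ᶠ M : ℕ in atTop,
      (Set.ncard {m : ℕ | m < M ∧ ¬ Expected.{u} r m Set.univ} : ℝ) ≤ c * M := by
  classical
  have hw0 : 0 ≤ width r := by unfold width; positivity
  by_cases hsq : IsSquare r
  · filter_upwards with M
    have h1 : {m : ℕ | m < M ∧ ¬ Expected.{u} r m Set.univ} = ∅ := by
      rw [Set.eq_empty_iff_forall_notMem]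
      rintro m ⟨-, hm⟩
      apply hm
      intro k _ _
      obtain ⟨F, hF, hF'⟩ := Pool.Agent.TH183.QS.coll_start hr (m := m) (Or.inr hsq) k
      exact ⟨F, hF, fun c b hc d _ => hF' c b hc d⟩
    rw [h1, Set.ncard_empty]
    have : 0 ≤ c * M := mul_nonneg (by linarith) (Nat.cast_nonneg M)
    simpa using this
  have hirr : Irrational (Real.sqrt r) := irrational_sqrt_natCast_iff.2 hsq
  obtain ⟨M0, hM0⟩ := TH885.NW.count_sharp hirr ((Real.sqrt r - 3) / 2) (width r / 2) (width r / 2)
    (by linarith) (sub_pos.2 hc)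
  filter_upwards [eventually_ge_atTop ⌈M0⌉₊] with M hM
  have hM' : M0 ≤ M := (Nat.le_ceil M0).trans (by exact_mod_cast hM)
  have hset : {m : ℕ | m < M ∧ ¬ Expected.{u} r m Set.univ} =
      ↑((Finset.range M).filter fun m => ¬ Expected.{u} r m Set.univ) := by
    ext m
    simp only [Set.mem_ofPred_eq, Finset.coe_filter, Finset.mem_range]
  rw [hset, Set.ncard_coe_finset]
  have h1 := hM0 M hM' ((Finset.range M).filter fun m => ¬ Expected.{u} r m Set.univ)
    (fun m hm => Finset.mem_range.1 (Finset.mem_filter.1 hm).1) (fun m hm => by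
      have h3 := (Finset.mem_filter.1 hm).2
      by_contra hcon
      push Not at hcon
      apply h3
      intro k _ _
      obtain ⟨F, hF, hF'⟩ := expected hr m k
      refine ⟨F, hF, fun c b hcb d _ => hF' c b hcb d ?_⟩
      rw [Set.mem_ofPred_eq, le_abs]
      rcases lt_or_ge (2 * (d : ℝ) + 3 - Real.sqrt r * (2 * m + 1)) (-width r) with h4 | h4
      · right; linarith
      · left
        have h5 := hcon d (by push_cast; linarith)
        push_cast at h5
        linarith)
  have e : width r / 2 + width r / 2 + (c - width r) = c := by ring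
  rw [e] at h1
  exact h1

/-- **General collisions of every number of fat points**: the expected dimension outside a window
which shrinks as the number of points grows. -/
theorem result (r : ℕ) (hr : 10 ≤ r) :
    (∀ m : ℕ, Expected.{u} r m {d | width r ≤ |2 * (d : ℝ) + 3 - Real.sqrt r * (2 * m + 1)|}) ∧
    (∀ c : ℝ, width r < c → ∀ᶠ M : ℕ in atTop,
      (Set.ncard {m : ℕ | m < M ∧ ¬ Expected.{u} r m Set.univ} : ℝ) ≤ c * M) :=
  ⟨fun m => expected hr m, fun _ hc => density hr hc⟩

end Pool.Agent.Results.MP_e6aa12_ag.ShrinkingWindowEveryR
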